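import Mathlib
import Pool.Agent.H373R2.T7.SegPr

namespace Pool.Agent.Results.MP_0bfb7f_nt.SmallEnergyShifts
open Finset Polynomial
open Pool.Agent.H373R2.T7

lemma energy_neg (p x : ℕ) (s : ℕ → ℤ) : energy p x (fun m => -1 * s m) = energy p x s := by
  unfold energy
  congr 1
  apply filter_congr
  intro q _
  simp only [← mul_sum]
  constructor <;> intro h <;> linarith

open Classical in
/-- **The Moebius function at shifted primes, for almost all shifts in a thin family.** Part 1: let `N` be large and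
let `s 1, ..., s x` be integers of absolute value at most `B N` whose additive energy of order `p` is at most
`(log N) ^ C * x ^ (2 p) / N`. Then for every complex weight `g` bounded by one (for instance the indicator function of
a set of primes defined by conditions on other shifts): for all but `x / (log N) ^ U` of the `m ≤ x`, the sums of
`μ n * Λ (n - s m) * g (n - s m)` over `n ≤ X` are at most `N / (log N) ^ U` in absolute value for all `X ≤ N`.
Part 2: the same for the shifts `f m` and `- f m`, `f` a nonconstant polynomial. -/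
theorem result :
    (∀ p B C U : ℕ, ∃ N0 : ℕ, ∀ N : ℕ, N0 ≤ N → ∀ (x : ℕ) (s : ℕ → ℤ), (∀ m ∈ Icc 1 x, |s m| ≤ B * N) →
      (energy p x s : ℝ) * N ≤ Real.log N ^ C * (x : ℝ) ^ (2 * p) →
      ∀ g : ℕ → ℂ, (∀ n, ‖g n‖ ≤ 1) →
      (((Icc 1 x).filter (fun m : ℕ => ∃ X : ℕ, X ≤ N ∧ N / Real.log N ^ U <
        ‖∑ n ∈ Icc 1 X, ((ArithmeticFunction.moebius n : ℤ) : ℂ) *
          ((ArithmeticFunction.vonMangoldt ((n : ℤ) - s m).toNat : ℝ) : ℂ) * g ((n : ℤ) - s m).toNat‖)).card : ℝ) ≤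
        x / Real.log N ^ U) ∧
    (∀ f : ℤ[X], 1 ≤ f.natDegree → 0 < f.leadingCoeff → ∀ B U : ℕ,
      ∃ N0 : ℕ, ∀ N : ℕ, N0 ≤ N → ∀ x : ℕ, N ≤ B * x ^ f.natDegree → x ^ f.natDegree ≤ B * N →
      ∀ σ : ℤ, (σ = 1 ∨ σ = -1) → ∀ g : ℕ → ℂ, (∀ n, ‖g n‖ ≤ 1) →
      (((Icc 1 x).filter (fun m : ℕ => ∃ X : ℕ, X ≤ N ∧ N / Real.log N ^ U <
        ‖∑ n ∈ Icc 1 X, ((ArithmeticFunction.moebius n : ℤ) : ℂ) *
          ((ArithmeticFunction.vonMangoldt ((n : ℤ) - σ * f.eval (m : ℤ)).toNat : ℝ) : ℂ) *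
          g ((n : ℤ) - σ * f.eval (m : ℤ)).toNat‖)).card : ℝ) ≤
        x / Real.log N ^ U) := by
  refine ⟨fun p B C U => pr_e p B C U, ?_⟩
  intro f hd hl B U
  obtain ⟨p, C, hC, hE⟩ := energy_poly f hd hl
  obtain ⟨N0, hN0⟩ := pr_e p (cf f * B) 1 U
  obtain ⟨m1, h1⟩ := ev_L' (B * C + 1)
  refine ⟨max N0 (max m1 3), fun N hN x hx1 hx2 σ hσ g hg => ?_⟩
  have hL := h1 N (le_trans (le_max_left _ _) (le_trans (le_max_right _ _) hN))
  have h3 : 3 ≤ N := le_trans (le_max_right _ _) (le_trans (le_max_right _ _) hN)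
  have hx : 1 ≤ x := by
    rcases Nat.eq_zero_or_pos x with h0 | h0
    · rw [h0, zero_pow (by omega), mul_zero] at hx1
      omega
    · exact h0
  apply hN0 N (le_trans (le_max_left _ _) hN) x (fun m => σ * f.eval (m : ℤ)) _ _ g hg
  · intro m hm
    rw [mem_Icc] at hm
    have h4 : |σ * f.eval (m : ℤ)| = |f.eval (m : ℤ)| := by
      rcases hσ with h | h <;> rw [h] <;> simp
    rw [h4]
    refine (abs_eval_le f m hm.1).trans ?_
    have h5 : cf f * m ^ f.natDegree ≤ (cf f * B) * N := by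
      calc cf f * m ^ f.natDegree ≤ cf f * (B * N) := Nat.mul_le_mul_left _ ((Nat.pow_le_pow_left hm.2 _).trans hx2)
        _ = cf f * B * N := by ring
    exact_mod_cast h5
  · have hEx := hE x hx
    have hen : energy p x (fun m => σ * f.eval (m : ℤ)) = energy p x (fun m => f.eval (m : ℤ)) := by
      rcases hσ with h | h
      · rw [h]; simp
      · rw [h]; exact energy_neg p x (fun m => f.eval (m : ℤ))
    rw [hen]
    have hNx : (N : ℝ) ≤ B * (x : ℝ) ^ f.natDegree := by exact_mod_cast hx1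
    calc (energy p x (fun m => f.eval (m : ℤ)) : ℝ) * N ≤ energy p x (fun m => f.eval (m : ℤ)) * (B * (x : ℝ) ^ f.natDegree) :=
          mul_le_mul_of_nonneg_left hNx (Nat.cast_nonneg _)
      _ = B * (energy p x (fun m => f.eval (m : ℤ)) * (x : ℝ) ^ f.natDegree) := by ring
      _ ≤ B * (C * (x : ℝ) ^ (2 * p)) := mul_le_mul_of_nonneg_left hEx (Nat.cast_nonneg _)
      _ = (B * C) * (x : ℝ) ^ (2 * p) := by ring
      _ ≤ Real.log N ^ 1 * (x : ℝ) ^ (2 * p) := by
          apply mul_le_mul_of_nonneg_right _ (by positivity)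
          rw [pow_one]
          linarith

end Pool.Agent.Results.MP_0bfb7f_nt.SmallEnergyShifts
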